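import Pool.Agent.K1H72.Fi.Gam

set_option autoImplicit false

/-!
# Fisher's scaling relation for the self-avoiding walk: the inequality `γ ≤ ν (2 - η)`

Proof.  The sum of the two-point function over the sites of norm at most `R` is at most
`R ^ (2 - η + o(1))`.  By the bound for the mean square displacement at least half of the `n`-step
walks, `n ≤ N`, end at a site of norm at most `N ^ (ν + o(1))` outside a given finite set, so that
the sum of `C_n / μ ^ n`, `n ≤ N`, is at most `N ^ (ν (2 - η) + o(1))`.  The bound for `C_n` itself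
follows from `C_{n+m} ≤ C_n C_m`.
-/

namespace Pool.Agent.Results.MP_5e6e69_pr.FisherInequality

open Filter Topology

/-- squared Euclidean norm -/
def nsq {d : ℕ} (z : Fin d → ℤ) : ℝ := ∑ i, (z i : ℝ) ^ 2

/-- Euclidean norm -/
noncomputable def nrm {d : ℕ} (z : Fin d → ℤ) : ℝ := Real.sqrt (nsq z)

/-- the `n`-step self-avoiding walks on `ℤ ^ d` which start at `0` -/
def Gam (d n : ℕ) : Set (Fin (n + 1) → Fin d → ℤ) :=
  {w | w 0 = 0 ∧ Function.Injective w ∧ ∀ i : Fin n, ∑ j, |w i.succ j - w i.castSucc j| = 1}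

/-- the number of `n`-step self-avoiding walks -/
noncomputable def C (d n : ℕ) : ℕ := (Gam d n).ncard

/-- the number of those which end at `z` -/
noncomputable def Cz (d n : ℕ) (z : Fin d → ℤ) : ℕ := {w ∈ Gam d n | w (Fin.last n) = z}.ncard

/-- the two-point function -/
noncomputable def G (d : ℕ) (μ : ℝ) (z : Fin d → ℤ) : ℝ := ∑' n : ℕ, (Cz d n z : ℝ) / μ ^ n

/-- the mean square displacement -/
noncomputable def msd (d n : ℕ) : ℝ := (∑ᶠ w ∈ Gam d n, nsq (w (Fin.last n))) / C d n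

/-- the exponent `γ` exists: `C_n / μ ^ n = n ^ (γ - 1 + o(1))` -/
def HasGamma (d : ℕ) (μ γ : ℝ) : Prop :=
  Tendsto (fun n : ℕ => Real.log (C d n / μ ^ n) / Real.log n) atTop (𝓝 (γ - 1))

/-- the exponent `ν` exists: the mean square displacement is `n ^ (2 ν + o(1))` -/
def HasNu (d : ℕ) (ν : ℝ) : Prop :=
  Tendsto (fun n : ℕ => Real.log (msd d n) / Real.log n) atTop (𝓝 (2 * ν))

/-- the exponent `η` exists: the two-point function is finite and `|z| ^ (- (d - 2 + η) + o(1))` -/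
def HasEta (d : ℕ) (μ η : ℝ) : Prop :=
  (∀ z, Summable fun n : ℕ => (Cz d n z : ℝ) / μ ^ n) ∧
    Tendsto (fun z : Fin d → ℤ => Real.log (G d μ z) / Real.log (nrm z)) cofinite
      (𝓝 (-((d : ℝ) - 2 + η)))

/-- upper bound: the mean square displacement is at most `n ^ (2 ν + o(1))` -/
def UpperNu (d : ℕ) (ν : ℝ) : Prop :=
  ∀ ε : ℝ, 0 < ε → ∀ᶠ n : ℕ in atTop, msd d n ≤ (n : ℝ) ^ (2 * ν + ε)

/-- upper bound: the two-point function is finite and at most `|z| ^ (- (d - 2 + η) + o(1))` -/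
def UpperEta (d : ℕ) (μ η : ℝ) : Prop :=
  (∀ z, Summable fun n : ℕ => (Cz d n z : ℝ) / μ ^ n) ∧
    ∀ ε : ℝ, 0 < ε → ∀ᶠ z : Fin d → ℤ in cofinite, G d μ z ≤ nrm z ^ (-((d : ℝ) - 2 + η) + ε)

/-- **Theorem.** Let `d ≥ 1` and let `μ` be the connective constant of `ℤ ^ d`.

1. If the exponents `γ`, `ν`, `η` of the self-avoiding walk exist, then `γ ≤ ν (2 - η)`.
2. More generally, if the mean square displacement is at most `n ^ (2 ν + o(1))` and the two-point
   function is at most `|z| ^ (- (d - 2 + η) + o(1))`, then the sum of `C_k / μ ^ k` over `k ≤ n` is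
   at most `n ^ (ν (2 - η) + o(1))`, `C_n ≤ μ ^ n n ^ (2 ν (2 - η) - 1 + o(1))`, and
   `γ ≤ ν (2 - η)` if the exponent `γ` exists. -/
theorem result :
    ∀ d : ℕ, 1 ≤ d → ∀ μ : ℝ,
      Tendsto (fun n : ℕ => (C d n : ℝ) ^ ((1 : ℝ) / (n : ℝ))) atTop (𝓝 μ) →
      (∀ γ ν η : ℝ, HasGamma d μ γ → HasNu d ν → HasEta d μ η → γ ≤ ν * (2 - η)) ∧
      ∀ ν η : ℝ, UpperNu d ν → UpperEta d μ η →
        (∀ ε : ℝ, 0 < ε → ∀ᶠ n : ℕ in atTop,
          ∑ k ∈ Finset.range (n + 1), (C d k : ℝ) / μ ^ k ≤ (n : ℝ) ^ (ν * (2 - η) + ε) ∧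
          (C d n : ℝ) ≤ μ ^ n * (n : ℝ) ^ (2 * (ν * (2 - η)) - 1 + ε)) ∧
        ∀ γ : ℝ, HasGamma d μ γ → γ ≤ ν * (2 - η) := by
  intro d hd μ hμ
  obtain rfl : μ = Pool.Agent.K1H72.Fi.mu d := Pool.Agent.K1H72.Fi.mu_eq hd hμ
  refine ⟨fun γ ν η hγ hν hη => Pool.Agent.K1H72.Fi.gamma_le hd
    (Pool.Agent.K1H72.Fi.upperNu_of hd hν) (Pool.Agent.K1H72.Fi.upperEta_of hη) hγ,
    fun ν η hν hη => ⟨fun ε hε => ?_, fun γ hγ => Pool.Agent.K1H72.Fi.gamma_le hd hν hη hγ⟩⟩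
  exact (Pool.Agent.K1H72.Fi.SS_le hd hν hη ε hε).and (Pool.Agent.K1H72.Fi.C_le hd hν hη ε hε)

end Pool.Agent.Results.MP_5e6e69_pr.FisherInequality
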